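import Pool.Agent.W_MP_f4a2a6_lc.Proof

/-!
# A formula with the fractional Helly property whose type-counting function is not
polynomially bounded
-/

namespace Pool.Agent.Results.MP_f4a2a6_lc.FHPNotPolyBounded

open Pool.Agent.W_MP_f4a2a6_lc

universe u

/-- **Main theorem.** There are a complete first-order theory `T` and a partitioned formula
`φ(x, y)` with the fractional Helly property, in all models of `T` (in particular in the monster
model), such that `f_φ` is not polynomially bounded. -/
theorem result : ∃ (L : FirstOrder.Language.{0, 0}) (T : L.Theory) (m n : ℕ)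
    (φ : L.Formula (Fin m ⊕ Fin n)), T.IsComplete ∧
      ∀ (M : Type u) [L.Structure M] [Nonempty M] [T.Model M],
        HasFHP φ M ∧ ¬ PolyBounded (typeCount φ M) := by
  refine ⟨Lg, Lg.completeTheory Pt, 1, 1, phi,
    FirstOrder.Language.completeTheory.isComplete Lg Pt, ?_⟩
  intro M _ _ _
  constructor
  · apply hasFHP_of_sigma
    rw [FirstOrder.Language.realize_iff_of_model_completeTheory Pt M]
    exact sigma_Pt
  · apply not_polyBounded
    intro K N
    have h : M ⊨ tau K N := by
      rw [FirstOrder.Language.realize_iff_of_model_completeTheory Pt M]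
      exact tau_Pt K N
    rw [realize_tau] at h
    obtain ⟨b, hb⟩ := h
    exact le_typeCount_of_config M K N b hb

end Pool.Agent.Results.MP_f4a2a6_lc.FHPNotPolyBounded
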